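import Pool.Agent.H765R3.Peg.Far

/-! Inscribed squares and farthest points: a Jordan curve on which the parts between farthest points
stay far away contains the vertices of a square. No regularity. -/

namespace Pool.Agent.Results.MP_5a3ebe_gt.FarthestPoints

/-- Let `ν` be a norm on the plane (or any continuous function with `ν 0 < ν z` for `z ≠ 0` that does
not decrease along the rays from `0`) and let `C` be a Jordan curve parametrised by `c : ℝ → ℂ` of
period `1` that does not contain the four vertices of a square. Then there are two different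
points `a = c x` and `b = c y` of `C` such that both arcs of `C` between `a` and `b` contain
a `ν`-farthest point from `b` (`c p` and `c q`, points where `ν (· - b)` is maximal on `C`) and
`ν ((1 - i) (a - b))` is at most this maximum. For `ν = |·|` the last condition says that
`√2 |a - b|` is at most the largest distance of a point of `C` from `b`. -/
theorem result (ν : ℂ → ℝ) (hν : Continuous ν) (hν0 : ∀ z, z ≠ 0 → ν 0 < ν z)
    (hν1 : ∀ z, ∀ t : ℝ, 1 ≤ t → ν z ≤ ν (t * z)) (c : ℝ → ℂ) (hc : Continuous c)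
    (hper : ∀ t, c (t + 1) = c t) (hinj : Set.InjOn c (Set.Ico 0 1))
    (hno : ¬ ∃ z w : ℂ, w ≠ 0 ∧ z ∈ Set.range c ∧ z + w ∈ Set.range c ∧
      z + w + Complex.I * w ∈ Set.range c ∧ z + Complex.I * w ∈ Set.range c) :
    ∃ x y p q : ℝ, x < y ∧ y < x + 1 ∧ x ≤ p ∧ p ≤ y ∧ y ≤ q ∧ q ≤ x + 1 ∧
      (∀ t, ν (c t - c y) ≤ ν (c p - c y)) ∧ (∀ t, ν (c t - c y) ≤ ν (c q - c y)) ∧
      ν ((1 - Complex.I) * (c x - c y)) ≤ ν (c p - c y) := by
  have L : H763R2.An.Loop c := ⟨hc, hper⟩
  obtain ⟨x, y, hx, hy, ⟨p, hp1, hp2, hp⟩, ⟨q, hq1, hq2, hq⟩, t, ht⟩ :=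
    H765R3.Peg.farthest L (H765R3.Peg.inj_of L hinj) hno hν hν0 hν1
  exact ⟨x, y, p, q, hx, hy, hp1, hp2, hq1, hq2, hp, hq, ht.trans (hp t)⟩

end Pool.Agent.Results.MP_5a3ebe_gt.FarthestPoints
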