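import Pool.Agent.H765R3.Peg.Angle
import Pool.Agent.H765R3.Peg.Conv

/-! Inscribed squares in Jordan curves around a point: a curve without inscribed square has four
points at four consecutive directions of 45 degrees from every point that it surrounds, the two
middle ones much further away than the outer ones. -/

namespace Pool.Agent.Results.MP_5a3ebe_gt.FourDirections

/-- Let `C` be a Jordan curve parametrised by `c : ℝ → ℂ` of period `1` and let `O` be a point
around which `C` winds once: `c t = O + r t * exp (i φ t)` with `r t > 0` and a continuous angle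
`φ` with `φ (t + 1) = φ t + 2 π`. If `C` does not contain the four vertices of a square, there are
an angle `α` and points of `C` in the four directions `α`, `α + π / 4`, `α + π / 2`,
`α + 3 π / 4` from `O`, at distances `r₀`, `r₁`, `r₂`, `r₃` from `O`, with
`r₁ ≥ √2 r₀ + r₃` and `r₂ ≥ r₀ + √2 r₃`. -/
theorem result (c : ℝ → ℂ) (hc : Continuous c) (hper : ∀ t, c (t + 1) = c t)
    (hinj : Set.InjOn c (Set.Ico 0 1)) (O : ℂ) (r φ : ℝ → ℝ) (hφ : Continuous φ)
    (hφ1 : ∀ t, φ (t + 1) = φ t + 2 * Real.pi)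
    (hpol : ∀ t, 0 < r t ∧ c t = O + r t * Complex.exp (φ t * Complex.I))
    (hno : ¬ ∃ z w : ℂ, w ≠ 0 ∧ z ∈ Set.range c ∧ z + w ∈ Set.range c ∧
      z + w + Complex.I * w ∈ Set.range c ∧ z + Complex.I * w ∈ Set.range c) :
    ∃ α r₀ r₁ r₂ r₃ : ℝ, 0 < r₀ ∧ 0 < r₃ ∧ √2 * r₀ + r₃ ≤ r₁ ∧ r₀ + √2 * r₃ ≤ r₂ ∧
      O + r₀ * Complex.exp ((α : ℝ) * Complex.I) ∈ Set.range c ∧
      O + r₁ * Complex.exp ((α + Real.pi / 4 : ℝ) * Complex.I) ∈ Set.range c ∧
      O + r₂ * Complex.exp ((α + Real.pi / 2 : ℝ) * Complex.I) ∈ Set.range c ∧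
      O + r₃ * Complex.exp ((α + 3 * Real.pi / 4 : ℝ) * Complex.I) ∈ Set.range c := by
  set d : ℝ → ℂ := fun t => c t - O with hd
  have L : H763R2.An.Loop d := ⟨hc.sub continuous_const, fun t => by simp only [hd, hper]⟩
  have hinj' : Set.InjOn d (Set.Ico 0 1) := fun x hx y hy h => hinj hx hy (by
    simpa [hd] using h)
  have J := H765R3.Peg.inj_of L hinj'
  have mem : ∀ z, z ∈ Set.range d ↔ O + z ∈ Set.range c := fun z => by
    constructor
    · rintro ⟨t, ht⟩
      exact ⟨t, by rw [← ht, hd]; ring⟩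
    · rintro ⟨t, ht⟩
      exact ⟨t, by simp only [hd, ht]; ring⟩
  have hno' : ¬ ∃ z w : ℂ, w ≠ 0 ∧ z ∈ Set.range d ∧ z + w ∈ Set.range d ∧
      z + w + Complex.I * w ∈ Set.range d ∧ z + Complex.I * w ∈ Set.range d := by
    rintro ⟨z, w, hw, a1, a2, a3, a4⟩
    rw [mem] at a1 a2 a3 a4
    exact hno ⟨O + z, w, hw, a1, by convert a2 using 1; ring, by convert a3 using 1; ring,
      by convert a4 using 1; ring⟩
  have nrm : ∀ t, ‖d t‖ = r t := fun t => by
    rw [hd]
    simp only [(hpol t).2, add_sub_cancel_left]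
    rw [norm_mul, Complex.norm_exp_ofReal_mul_I, mul_one, Complex.norm_real, Real.norm_eq_abs,
      abs_of_pos (hpol t).1]
  obtain ⟨α, r₀, r₁, r₂, r₃, h0, h3, h1, h2, m0, m1, m2, m3⟩ :=
    H765R3.Peg.four_directions L J hno' hφ hφ1
      (fun t h => by
        have := nrm t
        rw [h, norm_zero] at this
        exact (hpol t).1.ne this)
      (fun t => by
        rw [nrm, hd]
        simp only [(hpol t).2, add_sub_cancel_left])
  rw [mem] at m0 m1 m2 m3
  exact ⟨α, r₀, r₁, r₂, r₃, h0, h3, h1, h2, m0, m1, m2, m3⟩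

end Pool.Agent.Results.MP_5a3ebe_gt.FourDirections
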