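import Pool.Agent.H834Q.Final

/-!
# All Jordan curves near a symmetric Jordan curve have inscribed squares

`C₀` is a Jordan curve (no regularity) which is symmetric about a point or about a line and has at
most countably many inscribed squares. Then every Jordan curve which is uniformly close enough to
`C₀` has an inscribed square.
-/

set_option autoImplicit false

namespace Pool.Agent.Results.MP_5a3ebe_gt.NearSymmetric

open Set Metric
open scoped ComplexConjugate

/-- Let `C₀` be a Jordan curve parametrised by `c₀ : ℝ → ℂ` of period `1` which is symmetric about a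
point `p` or about a line `p + ℝ v`, `|v| = 1` (as a set). Suppose that it has at most countably many
inscribed squares. Then there is an `ε > 0` such that every Jordan curve with a parametrisation `c`
of period `1` with `|c t - c₀ t| ≤ ε` for all `t` contains the four vertices of a square. -/
theorem result (c₀ : ℝ → ℂ) (hc₀ : Continuous c₀) (hper₀ : ∀ t, c₀ (t + 1) = c₀ t)
    (hinj₀ : InjOn c₀ (Ico 0 1))
    (hsym : (∃ p : ℂ, ∀ z ∈ range c₀, 2 * p - z ∈ range c₀) ∨
      (∃ p v : ℂ, ‖v‖ = 1 ∧ ∀ z ∈ range c₀, p + v ^ 2 * conj (z - p) ∈ range c₀))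
    (hcount : {s : ℂ × ℂ | s.2 ≠ 0 ∧ s.1 ∈ range c₀ ∧ s.1 + s.2 ∈ range c₀ ∧
      s.1 + s.2 + Complex.I * s.2 ∈ range c₀ ∧ s.1 + Complex.I * s.2 ∈ range c₀}.Countable) :
    ∃ ε > 0, ∀ c : ℝ → ℂ, Continuous c → (∀ t, c (t + 1) = c t) → InjOn c (Ico 0 1) →
      (∀ t, ‖c t - c₀ t‖ ≤ ε) →
      ∃ z w : ℂ, w ≠ 0 ∧ z ∈ range c ∧ z + w ∈ range c ∧
        z + w + Complex.I * w ∈ range c ∧ z + Complex.I * w ∈ range c := by
  have hg : Pool.Agent.H834Q.Good c₀ := by
    rcases hsym with ⟨p, hp⟩ | ⟨p, v, hv, hp⟩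
    · exact Pool.Agent.H834Q.goodPoint hc₀ hper₀ hinj₀ hp hcount
    · exact Pool.Agent.H834Q.goodAxis hc₀ hper₀ hinj₀ hv hp hcount
  obtain ⟨ε, hε, H⟩ := hg
  exact ⟨ε, hε, fun c h1 h2 h3 h4 => by
    by_contra hcon
    exact H c h1 h2 h3 h4 hcon⟩

end Pool.Agent.Results.MP_5a3ebe_gt.NearSymmetric
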