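import Pool.Agent.H834Q.Near

/-!
# Inscribed squares in nearly centrally symmetric Jordan curves

Without any regularity: a quantitative robust form of the theorem that centrally symmetric Jordan
curves have inscribed squares.
-/

set_option autoImplicit false

namespace Pool.Agent.Results.MP_5a3ebe_gt.NearlyCentral

open Set Metric

/-- Let `C` be a Jordan curve parametrised by `c : ℝ → ℂ` of period `1`, and let `η` be a bound for
all the `|c (t + 1/2) + c t - 2 p|` (so `C` is centrally symmetric about `p` up to `η`). Let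
`s ↦ (x s, y s)` be a path of chords, `x < y < x + 1`, from a chord `(x 0, y 0)` to the opposite
chord `(x 0 + 1/2, y 0 + 1/2)`. If for every chord of the path at least one of the two other
vertices of the square erected to the left of it has a distance greater than `(2 + √2) η` from `C`,
then `C` contains the four vertices of a square. -/
theorem result (c : ℝ → ℂ) (hc : Continuous c) (hper : ∀ t, c (t + 1) = c t)
    (hinj : InjOn c (Ico 0 1)) (p : ℂ) (η : ℝ) (hsym : ∀ t, ‖c (t + 1 / 2) + c t - 2 * p‖ ≤ η)
    (x y : ℝ → ℝ) (hx : ContinuousOn x (Icc 0 1)) (hy : ContinuousOn y (Icc 0 1))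
    (hxy : ∀ s ∈ Icc (0 : ℝ) 1, x s < y s ∧ y s < x s + 1)
    (hend : x 1 = x 0 + 1 / 2 ∧ y 1 = y 0 + 1 / 2)
    (hfar : ∀ s ∈ Icc (0 : ℝ) 1, (2 + √2) * η <
      max (infDist (c (x s) + Complex.I * (c (y s) - c (x s))) (range c))
        (infDist (c (y s) + Complex.I * (c (y s) - c (x s))) (range c))) :
    ∃ z w : ℂ, w ≠ 0 ∧ z ∈ range c ∧ z + w ∈ range c ∧
      z + w + Complex.I * w ∈ range c ∧ z + Complex.I * w ∈ range c := by
  by_contra hcon
  exact Pool.Agent.H834Q.core ⟨hc, hper⟩ (Pool.Agent.H834Q.inj_of hper hinj) hsym hx hy hxy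
    hend.1 hend.2 hfar hcon

end Pool.Agent.Results.MP_5a3ebe_gt.NearlyCentral
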